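import Mathlib
import Pool.Agent.J4H62.CD.Stm

set_option autoImplicit false

namespace Pool.Agent.J4H88.CD

open Pool.Agent.J4H62.CD
open scoped Nat

theorem a_mul (k : ℕ) : a k * ((3 * k)! * (2 * k)! * k !) = (6 * k)! := by
  unfold a
  have h1 := Nat.choose_mul_factorial_mul_factorial (show 3 * k ≤ 6 * k by omega)
  have h2 := Nat.choose_mul_factorial_mul_factorial (show k ≤ 3 * k by omega)
  rw [show 6 * k - 3 * k = 3 * k by omega] at h1
  rw [show 3 * k - k = 2 * k by omega] at h2
  calc (6 * k).choose (3 * k) * (3 * k).choose k * ((3 * k)! * (2 * k)! * k !)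
      = (6 * k).choose (3 * k) * (3 * k)! * ((3 * k).choose k * k ! * (2 * k)!) := by ring
    _ = (6 * k)! := by rw [h2, h1]

theorem key (hFL : S_FL) (hFG : S_FG) (hSUM : S_SUM) (i j p : ℕ) (hp : p.Prime)
    (h1 : 1 ≤ i + j) (B : ℕ) (hB : padicValNat p (2 * (i + j) - 1) + 1 < B) :
    (∑ b ∈ Finset.Ico 1 B, L (p ^ b) i j) + padicValNat p (2 * (i + j) - 1) ≤
      ∑ b ∈ Finset.Ico 1 B, R (p ^ b) i j := by
  have : Fact p.Prime := ⟨hp⟩
  set c := padicValNat p (2 * (i + j) - 1) with hc
  have hd : p ^ c ∣ 2 * (i + j) - 1 := pow_padicValNat_dvd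
  have hnd : ¬ p ^ (c + 1) ∣ 2 * (i + j) - 1 := pow_succ_padicValNat_not_dvd (by omega)
  have hfl : ∀ b, L (p ^ b) i j ≤ R (p ^ b) i j := fun b =>
    hFL _ i j (Nat.one_le_pow _ _ hp.pos)
  rcases Nat.lt_or_ge 3 p with h3 | h3
  · have h : ∀ b ∈ Finset.Ico 1 B, L (p ^ b) i j + (if b ≤ c then 1 else 0) ≤ R (p ^ b) i j := by
      intro b hb
      rw [Finset.mem_Ico] at hb
      split_ifs with hbc
      · refine hFG (p ^ b) i j ?_ h1 ((pow_dvd_pow p hbc).trans hd)
        calc 3 < p := h3
          _ = p ^ 1 := (pow_one p).symm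
          _ ≤ p ^ b := Nat.pow_le_pow_right hp.pos hb.1
      · exact hfl b
    have h2 := Finset.sum_le_sum h
    rw [Finset.sum_add_distrib, ← Finset.card_filter] at h2
    have h4 : (Finset.Ico 1 B).filter (fun b => b ≤ c) = Finset.Ico 1 (c + 1) := by
      ext b
      simp only [Finset.mem_filter, Finset.mem_Ico]
      omega
    rw [h4, Nat.card_Ico] at h2
    omega
  · have h2 := hp.two_le
    have h4 : p = 2 ∨ p = 3 := by omega
    rcases h4 with h4 | h4
    · have hc0 : c = 0 := by
        by_contra h5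
        have h6 : p ∣ 2 * (i + j) - 1 := (dvd_pow_self p h5).trans hd
        rw [h4] at h6
        omega
      rw [hc0, Nat.add_zero]
      exact Finset.sum_le_sum fun b _ => hfl b
    · rw [h4] at hd hnd ⊢
      exact hSUM i j c B h1 hd hnd hB

theorem t_DIV : S_FL → S_FG → S_SUM → S_DIV := by
  intro hFL hFG hSUM i j h1
  set n := i + j with hn
  have hC := Nat.choose_mul_factorial_mul_factorial (show n ≤ 3 * n by omega)
  rw [show 3 * n - n = 2 * n by omega] at hC
  set D := ((3 * i)! * (2 * i)! * i !) * ((3 * j)! * (2 * j)! * j !) with hD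
  have hDpos : 0 < D * (n ! * (2 * n)!) := by
    rw [hD]
    positivity
  apply Nat.dvd_of_mul_dvd_mul_right hDpos
  have e1 : (2 * n - 1) * (3 * n).choose n * (D * (n ! * (2 * n)!)) =
      (2 * n - 1) * (3 * n)! * D := by
    rw [← hC]; ring
  have e2 : a i * a j * (D * (n ! * (2 * n)!)) = (6 * i)! * (6 * j)! * (n ! * (2 * n)!) := by
    rw [← a_mul i, ← a_mul j, hD]; ring
  rw [e1, e2]
  have f : ∀ k : ℕ, k ! ≠ 0 := Nat.factorial_ne_zero
  have hn1 : 2 * n - 1 ≠ 0 := by omega
  rw [← Nat.factorization_prime_le_iff_dvd (by rw [hD]; exact mul_ne_zero (mul_ne_zero hn1 (f _)) (by positivity)) (by positivity)]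
  intro p hp
  have : Fact p.Prime := ⟨hp⟩
  rw [Nat.factorization_def _ hp, Nat.factorization_def _ hp]
  set c := padicValNat p (2 * n - 1) with hc
  set B := 6 * n + c + 2 with hB
  have hlog : ∀ k, k ≤ 6 * n → padicValNat p (k !) = ∑ b ∈ Finset.Ico 1 B, k / p ^ b := by
    intro k hk
    apply padicValNat_factorial
    have := Nat.log_le_self p k
    omega
  have hkey := key hFL hFG hSUM i j p hp h1 B (by show padicValNat p (2 * n - 1) + 1 < B; omega)
  simp only [L, R, Finset.sum_add_distrib] at hkey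
  rw [← hn] at hkey
  rw [hD, padicValNat.mul (mul_ne_zero hn1 (f _)) (by
      have := f (3 * i); have := f (2 * i); have := f i
      have := f (3 * j); have := f (2 * j); have := f j
      positivity), padicValNat.mul hn1 (f _),
    padicValNat.mul (by positivity) (by positivity),
    padicValNat.mul (by positivity) (f _), padicValNat.mul (f _) (f _),
    padicValNat.mul (by positivity) (f _), padicValNat.mul (f _) (f _),
    padicValNat.mul (by positivity) (by positivity), padicValNat.mul (f _) (f _),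
    padicValNat.mul (f _) (f _),
    hlog _ (by omega), hlog _ (by omega), hlog _ (by omega), hlog _ (by omega),
    hlog _ (by omega), hlog _ (by omega), hlog _ (by omega), hlog _ (by omega),
    hlog _ (by omega), hlog _ (by omega), hlog _ (by omega)]
  omega

end Pool.Agent.J4H88.CD
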