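import Mathlib
import Pool.Agent.J4H62.CD.Stm

set_option autoImplicit false

namespace Pool.Agent.J4H88.CD

open Pool.Agent.J4H62.CD

theorem L_symm (q i j : ℕ) : L q i j = L q j i := by
  unfold L
  rw [Nat.add_comm i j]
  ring

theorem R_symm (q i j : ℕ) : R q i j = R q j i := by
  unfold R
  rw [Nat.add_comm i j]
  ring

theorem core (hFL : S_FL) (hFG : S_FG) (i j c B bs : ℕ) (h1 : 1 ≤ i + j) (hc : 1 ≤ c)
    (hd : 3 ^ c ∣ 2 * (i + j) - 1) (hB : c + 1 < B) (hb1 : 1 ≤ bs) (hb2 : bs ≤ c + 1)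
    (hg : L (3 ^ bs) i j + (if 2 ≤ bs ∧ bs ≤ c then 2 else 1) ≤ R (3 ^ bs) i j) :
    (∑ b ∈ Finset.Ico 1 B, L (3 ^ b) i j) + c ≤ ∑ b ∈ Finset.Ico 1 B, R (3 ^ b) i j := by
  have h : ∀ b ∈ Finset.Ico 1 B, L (3 ^ b) i j +
      ((if 2 ≤ b ∧ b ≤ c then 1 else 0) + (if b = bs then 1 else 0)) ≤ R (3 ^ b) i j := by
    intro b hb
    rw [Finset.mem_Ico] at hb
    have hfl := hFL (3 ^ b) i j (Nat.one_le_pow _ _ (by norm_num))
    by_cases h2 : 2 ≤ b ∧ b ≤ c
    · rw [if_pos h2]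
      by_cases h3 : b = bs
      · subst h3
        rw [if_pos rfl]
        rw [if_pos h2] at hg
        exact hg
      · rw [if_neg h3]
        have h4 : 3 < 3 ^ b := by
          calc 3 = 3 ^ 1 := by norm_num
            _ < 3 ^ b := Nat.pow_lt_pow_right (by norm_num) (by omega)
        have h5 := hFG (3 ^ b) i j h4 h1 ((pow_dvd_pow 3 h2.2).trans hd)
        omega
    · rw [if_neg h2]
      by_cases h3 : b = bs
      · subst h3
        rw [if_pos rfl]
        rw [if_neg h2] at hg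
        omega
      · rw [if_neg h3]
        omega
  have h2 := Finset.sum_le_sum h
  rw [Finset.sum_add_distrib, Finset.sum_add_distrib] at h2
  have h3 : (∑ b ∈ Finset.Ico 1 B, if 2 ≤ b ∧ b ≤ c then 1 else 0) = c - 1 := by
    rw [← Finset.card_filter]
    have : (Finset.Ico 1 B).filter (fun b => 2 ≤ b ∧ b ≤ c) = Finset.Ico 2 (c + 1) := by
      ext b
      simp only [Finset.mem_filter, Finset.mem_Ico]
      omega
    rw [this, Nat.card_Ico]
    omega
  have h4 : (∑ b ∈ Finset.Ico 1 B, if b = bs then 1 else 0) = 1 := by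
    rw [Finset.sum_ite_eq', if_pos]
    rw [Finset.mem_Ico]
    omega
  rw [h3, h4] at h2
  omega

/-- the case `3 ∣ j` -/
theorem case_j (hFL : S_FL) (hFG : S_FG) (hT2 : S_T2) (hT3 : S_T3) (i j c B : ℕ)
    (h1 : 1 ≤ i + j) (hc : 1 ≤ c) (hd : 3 ^ c ∣ 2 * (i + j) - 1)
    (hnd : ¬ 3 ^ (c + 1) ∣ 2 * (i + j) - 1) (hB : c + 1 < B) (hj : 3 ∣ j) :
    (∑ b ∈ Finset.Ico 1 B, L (3 ^ b) i j) + c ≤ ∑ b ∈ Finset.Ico 1 B, R (3 ^ b) i j := by
  have key : ∀ b, 1 ≤ b → b ≤ c → 3 ^ b ∣ j ∨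
      (∑ b ∈ Finset.Ico 1 B, L (3 ^ b) i j) + c ≤ ∑ b ∈ Finset.Ico 1 B, R (3 ^ b) i j := by
    intro b hb
    induction b, hb using Nat.le_induction with
    | base => intro _; left; simpa using hj
    | succ b hb ih =>
      intro hbc
      rcases ih (by omega) with h | h
      · have h3 : 3 ≤ 3 ^ b := by
          calc 3 = 3 ^ 1 := by norm_num
            _ ≤ 3 ^ b := Nat.pow_le_pow_right (by norm_num) hb
        have h4 : 3 * 3 ^ b = 3 ^ (b + 1) := by ring
        rcases hT2 (3 ^ b) i j h3 h1 (by rw [h4]; exact (pow_dvd_pow 3 hbc).trans hd) h with h5 | h5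
        · left
          rw [← h4]
          exact h5
        · right
          rw [h4] at h5
          refine core hFL hFG i j c B (b + 1) h1 hc hd hB (by omega) (by omega) ?_
          rw [if_pos ⟨by omega, hbc⟩]
          exact h5
      · right; exact h
  rcases key c hc le_rfl with h | h
  · have h3 : 3 ≤ 3 ^ c := by
      calc 3 = 3 ^ 1 := by norm_num
        _ ≤ 3 ^ c := Nat.pow_le_pow_right (by norm_num) hc
    have h4 : 3 * 3 ^ c = 3 ^ (c + 1) := by ring
    have h5 := hT3 (3 ^ c) i j h3 h1 hd (by rw [h4]; exact hnd) h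
    rw [h4] at h5
    refine core hFL hFG i j c B (c + 1) h1 hc hd hB (by omega) (by omega) ?_
    rw [if_neg (by omega)]
    exact h5
  · exact h

theorem t_SUM : S_FL → S_FG → S_T1 → S_T2 → S_T3 → S_SUM := by
  intro hFL hFG hT1 hT2 hT3 i j c B h1 hd hnd hB
  rcases Nat.eq_zero_or_pos c with hc | hc
  · subst hc
    rw [Nat.add_zero]
    exact Finset.sum_le_sum fun b _ => hFL _ i j (Nat.one_le_pow _ _ (by norm_num))
  · have h3 : 3 ∣ 2 * (i + j) - 1 := (dvd_pow_self 3 (by omega)).trans hd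
    rcases hT1 i j h1 h3 with h | h | h
    · exact case_j hFL hFG hT2 hT3 i j c B h1 hc hd hnd hB h
    · have h4 := case_j hFL hFG hT2 hT3 j i c B (by omega) hc (by rw [Nat.add_comm j i]; exact hd)
        (by rw [Nat.add_comm j i]; exact hnd) hB h
      simp only [L_symm _ j i, R_symm _ j i] at h4
      exact h4
    · refine core hFL hFG i j c B 1 h1 hc hd hB le_rfl (by omega) ?_
      rw [if_neg (by omega), pow_one]
      exact h

end Pool.Agent.J4H88.CD
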